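import Mathlib

/-!
Project LL (helper90): local liftings and global functorial liftings (MP_5ae62c_nt).
The adelic group `GL₂` over the function field `F₂(t)`.
-/

set_option autoImplicit false
set_option linter.unusedSectionVars false

open Polynomial IsDedekindDomain WithZero

namespace Pool.Agent.T2H90.LL

/-- the global field `K = F₂(t)` -/
abbrev K : Type := RatFunc (ZMod 2)

noncomputable instance instDecEqK : DecidableEq K := Classical.decEq _

noncomputable instance instDecEqHOS : DecidableEq (HeightOneSpectrum (ZMod 2)[X]) :=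
  Classical.decEq _

/-- the places of `K`: the place `∞` (`none`), and the nonzero prime ideals of `F₂[t]` -/
abbrev Pl : Type := Option (HeightOneSpectrum (ZMod 2)[X])

/-- the valuation of a place -/
noncomputable def pval : Pl → Valuation K ℤᵐ⁰
  | none => RatFunc.inftyValuation (ZMod 2)
  | some v => v.valuation K

/-- the completion `K_v` of `K` -/
abbrev Kv (v : Pl) : Type := (pval v).Completion

/-- the absolute value of `K_v`, with values in `ℤᵐ⁰` -/
noncomputable def av (v : Pl) : Valuation (Kv v) ℤᵐ⁰ := Valued.v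

/-- the embedding of `K` in `K_v` -/
noncomputable def emb (v : Pl) : K →+* Kv v :=
  (UniformSpace.Completion.coeRingHom).comp (WithVal.equiv (pval v)).symm.toRingHom

theorem av_emb (v : Pl) (x : K) : av v (emb v x) = pval v x :=
  Valued.extensionValuation_apply_coe (K := WithVal (pval v)) (WithVal.toVal (pval v) x)

theorem exists_uniformizer (v : Pl) : ∃ k : K, pval v k = exp (-1 : ℤ) := by
  rcases v with _ | v
  · exact ⟨1 / RatFunc.X, RatFunc.inftyValuation.X_inv (ZMod 2)⟩
  · exact v.valuation_exists_uniformizer K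

theorem exists_val (v : Pl) (n : ℤ) : ∃ k : K, pval v k = exp n := by
  obtain ⟨k, hk⟩ := exists_uniformizer v
  refine ⟨k ^ (-n), ?_⟩
  rw [map_zpow₀, hk, ← WithZero.exp_zsmul]
  simp

theorem emb_dense (v : Pl) (x : Kv v) (n : ℤ) : ∃ k : K, av v (x - emb v k) ≤ exp n := by
  obtain ⟨a, ha⟩ := exists_val v n
  have ha' : av v (emb v a) = exp n := by rw [av_emb, ha]
  have ha0 : emb v a ≠ 0 := by
    intro h
    rw [h, map_zero] at ha'
    exact (exp_ne_zero ha'.symm)
  have hd : DenseRange (emb v) := by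
    have h1 : DenseRange ((↑) : WithVal (pval v) → Kv v) := UniformSpace.Completion.denseRange_coe
    exact h1.comp (WithVal.equiv (pval v)).symm.surjective.denseRange
      (UniformSpace.Completion.continuous_coe _)
  have hn : {y : Kv v | av v (y - x) ≤ exp n} ∈ nhds x := by
    rw [Valued.mem_nhds]
    refine ⟨Units.mk0 ((Valued.v (R := Kv v)).restrict (emb v a)) ?_, ?_⟩
    · simpa using ha0
    · intro y hy
      have hy' : (Valued.v (R := Kv v)).restrict (y - x) < (Valued.v (R := Kv v)).restrict (emb v a) := hy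
      rw [Valuation.restrict_lt_iff] at hy'
      have h2 : av v (y - x) < av v (emb v a) := hy'
      rw [ha'] at h2
      exact h2.le
  obtain ⟨k, hk⟩ := hd.exists_mem_open isOpen_interior ⟨x, mem_interior_iff_mem_nhds.2 hn⟩
  refine ⟨k, ?_⟩
  have h3 : emb v k ∈ {y : Kv v | av v (y - x) ≤ exp n} := interior_subset hk
  have h3 : av v (emb v k - x) ≤ exp n := h3
  rwa [Valuation.map_sub_swap] at h3

/-- the group `GL₂(K_v)` -/
abbrev Gv (v : Pl) : Type := GL (Fin 2) (Kv v)

/-- the maximal compact subgroup `GL₂(O_v)`: the matrices `g` such that the entries of `g` and of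
`g⁻¹` are integral -/
def GO (v : Pl) : Subgroup (Gv v) where
  carrier := {g | (∀ i j, av v (g i j) ≤ 1) ∧ ∀ i j, av v (g⁻¹ i j) ≤ 1}
  one_mem' := by
    refine ⟨fun i j => ?_, fun i j => ?_⟩
    · by_cases h : i = j <;> simp [h]
    · rw [inv_one]
      by_cases h : i = j <;> simp [h]
  mul_mem' := by
    intro a b ha hb
    have key : ∀ (x y : Gv v), (∀ i j, av v (x i j) ≤ 1) → (∀ i j, av v (y i j) ≤ 1) →
        ∀ i j, av v ((x * y : Gv v) i j) ≤ 1 := by
      intro x y hx hy i j
      rw [Units.val_mul, Matrix.mul_apply]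
      refine Valuation.map_sum_le _ fun k _ => ?_
      rw [map_mul]
      exact mul_le_one' (hx i k) (hy k j)
    refine ⟨key a b ha.1 hb.1, ?_⟩
    rw [mul_inv_rev]
    exact key _ _ hb.2 ha.2
  inv_mem' := by
    intro a ha
    refine ⟨ha.2, ?_⟩
    rw [inv_inv]
    exact ha.1

/-- the principal congruence subgroup of level `m` in `GL₂(O_v)` -/
def cg (v : Pl) (m : ℕ) : Subgroup (Gv v) where
  carrier := {g | (∀ i j, av v ((g : Matrix (Fin 2) (Fin 2) (Kv v)) i j
      - (1 : Matrix (Fin 2) (Fin 2) (Kv v)) i j) ≤ exp (-(m : ℤ))) ∧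
    ∀ i j, av v ((g⁻¹ : Gv v) i j - (1 : Matrix (Fin 2) (Fin 2) (Kv v)) i j) ≤ exp (-(m : ℤ))}
  one_mem' := by
    refine ⟨fun i j => ?_, fun i j => ?_⟩
    · simp
    · rw [inv_one]
      simp
  mul_mem' := by
    intro a b ha hb
    have hle : exp (-(m : ℤ)) ≤ (1 : ℤᵐ⁰) := by
      rw [← exp_zero, exp_le_exp]
      omega
    have key : ∀ (x y : Gv v), (∀ i j, av v ((x : Matrix (Fin 2) (Fin 2) (Kv v)) i j
          - (1 : Matrix (Fin 2) (Fin 2) (Kv v)) i j) ≤ exp (-(m : ℤ))) →
        (∀ i j, av v ((y : Matrix (Fin 2) (Fin 2) (Kv v)) i j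
          - (1 : Matrix (Fin 2) (Fin 2) (Kv v)) i j) ≤ exp (-(m : ℤ))) →
        ∀ i j, av v (((x * y : Gv v) : Matrix (Fin 2) (Fin 2) (Kv v)) i j
          - (1 : Matrix (Fin 2) (Fin 2) (Kv v)) i j) ≤ exp (-(m : ℤ)) := by
      intro x y hx hy i j
      have e : ((x * y : Gv v) : Matrix (Fin 2) (Fin 2) (Kv v)) - 1
          = ((x : Matrix (Fin 2) (Fin 2) (Kv v)) - 1) * ((y : Matrix (Fin 2) (Fin 2) (Kv v)) - 1)
            + ((x : Matrix (Fin 2) (Fin 2) (Kv v)) - 1)
            + ((y : Matrix (Fin 2) (Fin 2) (Kv v)) - 1) := by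
        rw [Units.val_mul]
        noncomm_ring
      rw [← Matrix.sub_apply, e, Matrix.add_apply, Matrix.add_apply]
      refine (Valuation.map_add_le _ (Valuation.map_add_le _ ?_ ?_) ?_)
      · rw [Matrix.mul_apply]
        refine Valuation.map_sum_le _ fun k _ => ?_
        rw [map_mul, Matrix.sub_apply, Matrix.sub_apply]
        calc _ ≤ exp (-(m : ℤ)) * 1 := mul_le_mul' (hx i k) ((hy k j).trans hle)
          _ = _ := mul_one _
      · rw [Matrix.sub_apply]
        exact hx i j
      · rw [Matrix.sub_apply]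
        exact hy i j
    refine ⟨key a b ha.1 hb.1, ?_⟩
    rw [mul_inv_rev]
    exact key _ _ hb.2 ha.2
  inv_mem' := by
    intro a ha
    refine ⟨ha.2, ?_⟩
    rw [inv_inv]
    exact ha.1

/-- the adelic group `GL₂(𝔸_K)`: the restricted product of the groups `GL₂(K_v)` with respect to
the subgroups `GL₂(O_v)`, over all places `v` of `K` -/
def GA : Subgroup (∀ v : Pl, Gv v) where
  carrier := {g | {v | g v ∉ GO v}.Finite}
  one_mem' := by
    have : {v : Pl | (1 : ∀ v : Pl, Gv v) v ∉ GO v} = ∅ := by
      ext v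
      simp [one_mem]
    change {v : Pl | (1 : ∀ v : Pl, Gv v) v ∉ GO v}.Finite
    rw [this]
    exact Set.finite_empty
  mul_mem' := by
    intro a b ha hb
    refine (ha.union hb).subset fun v hv => ?_
    by_contra h
    rw [Set.mem_union, not_or] at h
    exact hv (mul_mem (not_not.1 h.1) (not_not.1 h.2))
  inv_mem' := by
    intro a ha
    refine ha.subset fun v hv => ?_
    intro h
    exact hv (inv_mem h)

/-- the compact open subgroups of `GL₂(𝔸_K)`: the matrices which are integral and congruent to `1`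
modulo the divisor `∑ n_v v` -/
def cgA (n : Pl → ℕ) : Set GA := {g | ∀ v, g.1 v ∈ cg v (n v)}

/-- a level: a function on the places which vanishes at almost all places -/
def IsLevel (n : Pl → ℕ) : Prop := {v | n v ≠ 0}.Finite

/-- the embedding of `GL₂(K_v)` in `GL₂(𝔸_K)` -/
noncomputable def loc (v : Pl) : Gv v →* GA where
  toFun g := ⟨Pi.mulSingle v g, by
    refine (Set.finite_singleton v).subset fun w hw => ?_
    by_contra h
    apply hw
    have h' : w ≠ v := h
    rw [Pi.mulSingle_eq_of_ne h']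
    exact one_mem _⟩
  map_one' := by
    apply Subtype.ext
    exact Pi.mulSingle_one v
  map_mul' a b := by
    apply Subtype.ext
    exact Pi.mulSingle_mul v a b

theorem emb_finite (x : K) : {v : Pl | ¬ av v (emb v x) ≤ 1}.Finite := by
  have h1 : {v : HeightOneSpectrum (ZMod 2)[X] | 1 < v.valuation K x}.Finite :=
    HeightOneSpectrum.Support.finite (R := (ZMod 2)[X]) x
  refine ((h1.image some).union (Set.finite_singleton none)).subset fun v hv => ?_
  rcases v with _ | v
  · exact Or.inr rfl
  · refine Or.inl ⟨v, ?_, rfl⟩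
    have h2 : ¬ av (some v) (emb (some v) x) ≤ 1 := hv
    rw [av_emb] at h2
    exact not_le.1 h2

/-- the diagonal embedding of `GL₂(K)` in `GL₂(𝔸_K)` -/
noncomputable def glob : GL (Fin 2) K →* GA where
  toFun g := ⟨fun v => Matrix.GeneralLinearGroup.map (emb v) g, by
    have h1 : (⋃ i : Fin 2, ⋃ j : Fin 2, ({v : Pl | ¬ av v (emb v (g i j)) ≤ 1} ∪
        {v : Pl | ¬ av v (emb v (g⁻¹ i j)) ≤ 1})).Finite :=
      Set.finite_iUnion fun i => Set.finite_iUnion fun j => (emb_finite _).union (emb_finite _)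
    refine h1.subset fun v hv => ?_
    by_contra h
    simp only [Set.mem_iUnion, Set.mem_union, Set.mem_ofPred_eq, not_exists, not_or, not_not] at h
    apply hv
    refine ⟨fun i j => ?_, fun i j => ?_⟩
    · exact (h i j).1
    · rw [← map_inv]
      exact (h i j).2⟩
  map_one' := by
    apply Subtype.ext
    funext v
    simp
  map_mul' a b := by
    apply Subtype.ext
    funext v
    simp

end Pool.Agent.T2H90.LL
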