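import Pool.Agent.T2H90.LL.Base

/-!
Project LL (helper90), MP_5ae62c_nt: automorphic representations of `GL₂` over `K = F₂(t)`,
local components, isobaric representations and global liftings for the standard representation
`ρ` of `GL₂(ℂ)`.
-/

set_option autoImplicit false
set_option linter.unusedSectionVars false

open Polynomial IsDedekindDomain WithZero

namespace Pool.Agent.T2H90.LL

/-! ### Representations -/

/-- irreducibility of a representation of a group on a complex vector space -/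
def IrrRep {G V : Type} [Group G] [AddCommGroup V] [Module ℂ V] (ρ : Representation ℂ G V) : Prop :=
  Nontrivial V ∧ ∀ U : Submodule ℂ V, (∀ g, ∀ x ∈ U, ρ g x ∈ U) → U = ⊥ ∨ U = ⊤

/-- smoothness of a representation of `GL₂(K_v)`: every vector is fixed by a congruence subgroup -/
def SmoothV (v : Pl) {V : Type} [AddCommGroup V] [Module ℂ V] (ρ : Representation ℂ (Gv v) V) :
    Prop :=
  ∀ x, ∃ m, ∀ g ∈ cg v m, ρ g x = x

/-- smoothness of a representation of `GL₂(𝔸_K)` -/
def SmoothA {V : Type} [AddCommGroup V] [Module ℂ V] (π : Representation ℂ GA V) : Prop :=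
  ∀ x, ∃ n, IsLevel n ∧ ∀ g ∈ cgA n, π g x = x

/-- the smooth irreducible representations of `GL₂(K_v)` -/
structure IrrV (v : Pl) where
  /-- the space -/
  V : Type
  /-- addition -/
  [grp : AddCommGroup V]
  /-- scalar multiplication -/
  [mod : Module ℂ V]
  /-- the action -/
  ρ : Representation ℂ (Gv v) V
  irr : IrrRep ρ
  smooth : SmoothV v ρ

attribute [instance] IrrV.grp IrrV.mod

/-- unramified: there is a nonzero vector which is fixed by `GL₂(O_v)` -/
def Unram {v : Pl} (σ : IrrV v) : Prop := ∃ x : σ.V, x ≠ 0 ∧ ∀ k ∈ GO v, σ.ρ k x = x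

/-- `σ` is the local component at `v` of the (irreducible) representation `π` of `GL₂(𝔸_K)`: the
restriction of `π` to `GL₂(K_v)` is a sum of copies of `σ` -/
def LocComp {V : Type} [AddCommGroup V] [Module ℂ V] (π : Representation ℂ GA V) (v : Pl)
    (σ : IrrV v) : Prop :=
  Submodule.span ℂ {y : V | ∃ (T : σ.V →ₗ[ℂ] V) (x : σ.V),
    (∀ g z, T (σ.ρ g z) = π (loc v g) (T z)) ∧ T x = y} = ⊤

/-! ### Automorphic forms -/

/-- right translation of functions -/
noncomputable def rt : Representation ℂ GA (GA → ℂ) where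
  toFun g := { toFun := fun f x => f (x * g), map_add' := fun _ _ => rfl, map_smul' := fun _ _ => rfl }
  map_one' := by
    ext f x
    simp
  map_mul' a b := by
    ext f x
    simp [mul_assoc]

/-- the vectors which are fixed by a set of elements of the group -/
def fixd {G V : Type} [Group G] [AddCommGroup V] [Module ℂ V] (ρ : Representation ℂ G V)
    (H : Set G) : Submodule ℂ V where
  carrier := {x | ∀ h ∈ H, ρ h x = x}
  zero_mem' := fun h _ => map_zero _
  add_mem' := fun {a b} ha hb h hh => by rw [map_add, ha h hh, hb h hh]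
  smul_mem' := fun c {a} ha h hh => by rw [map_smul, ha h hh]

/-- automorphic forms on `GL₂(K) \ GL₂(𝔸_K)` (Borel-Jacquet): functions which are left invariant
under `GL₂(K)`, right invariant under a compact open subgroup, and generate an admissible
representation of `GL₂(K_v)` for some place `v` -/
def IsAutForm (f : GA → ℂ) : Prop :=
  (∀ γ x, f (glob γ * x) = f x) ∧ (∃ n, IsLevel n ∧ ∀ k ∈ cgA n, rt k f = f) ∧
  ∃ v : Pl, ∀ m : ℕ, FiniteDimensional ℂ ↥(Submodule.span ℂ (Set.range fun g : Gv v => rt (loc v g) f)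
    ⊓ fixd rt (loc v '' (cg v m : Set (Gv v))))

/-- the adeles of `K` -/
def Ad : AddSubgroup (∀ v : Pl, Kv v) where
  carrier := {x | {v | ¬ av v (x v) ≤ 1}.Finite}
  zero_mem' := by
    have : {v : Pl | ¬ av v ((0 : ∀ v : Pl, Kv v) v) ≤ 1} = ∅ := by
      ext v
      simp
    change {v : Pl | ¬ av v ((0 : ∀ v : Pl, Kv v) v) ≤ 1}.Finite
    rw [this]
    exact Set.finite_empty
  add_mem' := by
    intro a b ha hb
    refine (ha.union hb).subset fun v hv => ?_
    by_contra h
    simp only [Set.mem_union, Set.mem_ofPred_eq, not_or, not_not] at h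
    exact hv (Valuation.map_add_le _ h.1 h.2)
  neg_mem' := by
    intro a ha
    refine ha.subset fun v hv => ?_
    intro h
    apply hv
    change av v (-(a v)) ≤ 1
    rw [Valuation.map_neg]
    exact h

/-- the diagonal embedding of `K` in the adeles -/
noncomputable def gl1 (x : K) : Ad := ⟨fun v => emb v x, emb_finite x⟩

/-- the compact open subgroup of the adeles which are integral and divisible by `∑ n_v v` -/
def AdO (n : Pl → ℕ) : Set Ad := {x | ∀ v, av v (x.1 v) ≤ exp (-(n v : ℤ))}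

/-- upper triangular unipotent matrices -/
def upp {R : Type} [CommRing R] (x : R) : GL (Fin 2) R where
  val := !![1, x; 0, 1]
  inv := !![1, -x; 0, 1]
  val_inv := by
    ext i j
    fin_cases i <;> fin_cases j <;> simp [Matrix.mul_apply, Fin.sum_univ_two]
  inv_val := by
    ext i j
    fin_cases i <;> fin_cases j <;> simp [Matrix.mul_apply, Fin.sum_univ_two]

/-- upper triangular unipotent adelic matrices -/
noncomputable def nA (x : Ad) : GA := ⟨fun v => upp (x.1 v), by
  refine x.2.subset fun v hv => ?_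
  intro h
  apply hv
  refine ⟨fun i j => ?_, fun i j => ?_⟩
  · fin_cases i <;> fin_cases j <;> simp [upp, h]
  · change av v ((!![1, -x.1 v; 0, 1] : Matrix (Fin 2) (Fin 2) (Kv v)) i j) ≤ 1
    fin_cases i <;> fin_cases j <;> simp [h, Valuation.map_neg]⟩

/-- the vanishing of the constant term `∫ f (n(x) g) dx` over `K \ 𝔸_K`, for all `g`. As the function
of `x` is invariant under `K` and under all sufficiently small compact open subgroups `AdO n` of
`𝔸_K`, the integral is, up to a positive constant, the sum over a system `S` of representatives of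
the finite group `𝔸_K / (K + AdO n)` -/
def IsCusp (f : GA → ℂ) : Prop :=
  ∀ g : GA, ∃ n₀, IsLevel n₀ ∧ ∀ n, IsLevel n → (∀ v, n₀ v ≤ n v) → ∀ S : Finset Ad,
    (∀ x : Ad, ∃! s, s ∈ S ∧ ∃ k : K, ∃ a ∈ AdO n, x - s = gl1 k + a) →
      ∑ s ∈ S, f (nA s * g) = 0

/-- automorphic representations: irreducible subquotients of the space of automorphic forms -/
def IsAutRep {V : Type} [AddCommGroup V] [Module ℂ V] (π : Representation ℂ GA V) : Prop :=
  IrrRep π ∧ ∃ (A : Submodule ℂ (GA → ℂ)) (_ : ∀ g, ∀ f ∈ A, rt g f ∈ A) (T : A →ₗ[ℂ] V),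
    (∀ f ∈ A, IsAutForm f) ∧ Function.Surjective T ∧
    ∀ (g : GA) (f f' : A), (f' : GA → ℂ) = rt g f → T f' = π g (T f)

/-- cuspidal automorphic representations: irreducible subquotients of the space of cusp forms -/
def IsCuspRep {V : Type} [AddCommGroup V] [Module ℂ V] (π : Representation ℂ GA V) : Prop :=
  IrrRep π ∧ ∃ (A : Submodule ℂ (GA → ℂ)) (_ : ∀ g, ∀ f ∈ A, rt g f ∈ A) (T : A →ₗ[ℂ] V),
    (∀ f ∈ A, IsAutForm f ∧ IsCusp f) ∧ Function.Surjective T ∧
    ∀ (g : GA) (f f' : A), (f' : GA → ℂ) = rt g f → T f' = π g (T f)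

/-! ### Hecke characters and isobaric representations -/

/-- the ideles of `K` -/
def Id : Subgroup (∀ v : Pl, (Kv v)ˣ) where
  carrier := {x | {v | ¬ av v (x v : Kv v) = 1}.Finite}
  one_mem' := by
    have : {v : Pl | ¬ av v (((1 : ∀ v : Pl, (Kv v)ˣ) v : (Kv v)ˣ) : Kv v) = 1} = ∅ := by
      ext v
      simp
    change {v : Pl | ¬ av v (((1 : ∀ v : Pl, (Kv v)ˣ) v : (Kv v)ˣ) : Kv v) = 1}.Finite
    rw [this]
    exact Set.finite_empty
  mul_mem' := by
    intro a b ha hb
    refine (ha.union hb).subset fun v hv => ?_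
    by_contra h
    simp only [Set.mem_union, Set.mem_ofPred_eq, not_or, not_not] at h
    apply hv
    change av v ((a v : Kv v) * (b v : Kv v)) = 1
    rw [map_mul, h.1, h.2, mul_one]
  inv_mem' := by
    intro a ha
    refine ha.subset fun v hv => ?_
    intro h
    apply hv
    change av v (((a v)⁻¹ : (Kv v)ˣ) : Kv v) = 1
    rw [Units.val_inv_eq_inv_val, map_inv₀, h, inv_one]

/-- the diagonal embedding of `Kˣ` in the ideles -/
noncomputable def glI : Kˣ →* Id where
  toFun x := ⟨fun v => Units.map (emb v).toMonoidHom x, by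
    refine ((emb_finite (x : K)).union (emb_finite ((x⁻¹ : Kˣ) : K))).subset fun v hv => ?_
    by_contra h
    simp only [Set.mem_union, Set.mem_ofPred_eq, not_or, not_not] at h
    apply hv
    have h1 : av v (emb v (x : K)) * av v (emb v ((x⁻¹ : Kˣ) : K)) = 1 := by
      rw [← map_mul, ← map_mul, Units.mul_inv, map_one, map_one]
    exact le_antisymm h.1 (by
      by_contra h2
      have h3 : av v (emb v (x : K)) < 1 := not_le.1 h2
      have h4 : av v (emb v (x : K)) * av v (emb v ((x⁻¹ : Kˣ) : K)) < 1 :=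
        mul_lt_one_of_lt_of_le h3 h.2
      exact (ne_of_lt h4) h1)⟩
  map_one' := by
    apply Subtype.ext
    funext v
    simp
  map_mul' a b := by
    apply Subtype.ext
    funext v
    simp

/-- the embedding of `K_vˣ` in the ideles -/
noncomputable def locI (v : Pl) : (Kv v)ˣ →* Id where
  toFun x := ⟨Pi.mulSingle v x, by
    refine (Set.finite_singleton v).subset fun w hw => ?_
    by_contra h
    apply hw
    have h' : w ≠ v := h
    rw [Pi.mulSingle_eq_of_ne h']
    simp⟩
  map_one' := by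
    apply Subtype.ext
    exact Pi.mulSingle_one v
  map_mul' a b := by
    apply Subtype.ext
    exact Pi.mulSingle_mul (f := fun v : Pl => (Kv v)ˣ) v a b

/-- Hecke (quasi-)characters: characters of the ideles which are trivial on `Kˣ` and on an open
subgroup (these are the cuspidal automorphic representations of `GL₁`) -/
def IsHecke (χ : Id →* ℂˣ) : Prop :=
  (∀ x, χ (glI x) = 1) ∧ ∃ n, IsLevel n ∧ ∀ u : Id,
    (∀ v, av v (u.1 v : Kv v) = 1 ∧ av v ((u.1 v : Kv v) - 1) ≤ exp (-(n v : ℤ))) → χ u = 1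

/-- the number of elements of the residue field of `K_v` -/
noncomputable def qv : Pl → ℕ
  | none => 2
  | some v => Nat.card ((ZMod 2)[X] ⧸ v.asIdeal)

/-- the normalised absolute value of `K_v`, on the units -/
noncomputable def nv (v : Pl) (x : (Kv v)ˣ) : ℝ := (qv v : ℝ) ^ (log (av v (x : Kv v)))

/-- upper triangular matrices -/
noncomputable def bor {v : Pl} (a d : (Kv v)ˣ) (b : Kv v) : Gv v where
  val := !![(a : Kv v), b; 0, (d : Kv v)]
  inv := !![(a : Kv v)⁻¹, -((a : Kv v)⁻¹ * b * (d : Kv v)⁻¹); 0, (d : Kv v)⁻¹]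
  val_inv := by
    ext i j
    fin_cases i <;> fin_cases j <;> simp [Matrix.mul_apply, Fin.sum_univ_two, mul_assoc]
  inv_val := by
    ext i j
    fin_cases i <;> fin_cases j <;> simp [Matrix.mul_apply, Fin.sum_univ_two, mul_assoc]

/-- the space of the normalised parabolically induced representation `Ind (μ ⊗ ν)` of `GL₂(K_v)`:
smooth functions `φ` with `φ ((a b; 0 d) g) = |a/d|^(1/2) μ(a) ν(d) φ(g)` -/
def IsInd (v : Pl) (μ ν : (Kv v)ˣ →* ℂˣ) (φ : Gv v → ℂ) : Prop :=
  (∀ a d b g, φ (bor a d b * g)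
    = (Real.sqrt (nv v (a / d)) : ℂ) * (μ a : ℂ) * (ν d : ℂ) * φ g) ∧
  ∃ m, ∀ g, ∀ k ∈ cg v m, φ (g * k) = φ g

/-- `σ` is a subrepresentation of `Ind (μ ⊗ ν)` -/
def SubInd (v : Pl) (μ ν : (Kv v)ˣ →* ℂˣ) (σ : IrrV v) : Prop :=
  ∃ T : σ.V →ₗ[ℂ] (Gv v → ℂ), Function.Injective T ∧ (∀ x, IsInd v μ ν (T x)) ∧
    ∀ g x h, T (σ.ρ g x) h = T x (h * g)

/-- `σ = μ ⊞ ν`, the Langlands sum of two characters: the Langlands quotient of `Ind (μ ⊗ ν)`, which
is the irreducible subrepresentation of `Ind (ν ⊗ μ)`, if `|μ| = |.|^a`, `|ν| = |.|^b` with `a ≥ b`;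
if `a ≤ b`, the roles of `μ` and `ν` are exchanged -/
def LangSum (v : Pl) (μ ν : (Kv v)ˣ →* ℂˣ) (σ : IrrV v) : Prop :=
  ((∀ x : (Kv v)ˣ, av v (x : Kv v) ≤ 1 → ‖(μ x : ℂ)‖ ≤ ‖(ν x : ℂ)‖) ∧ SubInd v ν μ σ) ∨
  ((∀ x : (Kv v)ˣ, av v (x : Kv v) ≤ 1 → ‖(ν x : ℂ)‖ ≤ ‖(μ x : ℂ)‖) ∧ SubInd v μ ν σ)

/-- isobaric automorphic representations `Π` of `GL₂(𝔸_K)`: `Π` is cuspidal, or `Π = χ₁ ⊞ χ₂` for two
Hecke characters, which means that `Π_v = χ₁,v ⊞ χ₂,v` for all places `v` -/
def IsIsobaric {V : Type} [AddCommGroup V] [Module ℂ V] (π : Representation ℂ GA V) : Prop :=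
  IsAutRep π ∧ (IsCuspRep π ∨ ∃ χ₁ χ₂ : Id →* ℂˣ, IsHecke χ₁ ∧ IsHecke χ₂ ∧ ∀ v, ∃ σ : IrrV v,
    LocComp π v σ ∧ LangSum v (χ₁.comp (locI v)) (χ₂.comp (locI v)) σ)

/-- `Π` is a global lifting of `π` for the standard representation `ρ` of `GL₂(ℂ)`: `Π` is isobaric
and `Π_v = π_v` at all places where `π_v` is unramified -/
def IsLift {V W : Type} [AddCommGroup V] [Module ℂ V] [AddCommGroup W] [Module ℂ W]
    (π : Representation ℂ GA V) (P : Representation ℂ GA W) : Prop :=
  IsIsobaric P ∧ ∀ (v : Pl) (σ : IrrV v), LocComp π v σ → Unram σ → LocComp P v σ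

/-- the final statement: for `F = F₂((1/t))`, `G = GL₂` and `ρ = std` there is no local lifting
`Irr(GL₂(F)) → Irr(GL₂(F))` which is compatible with the global liftings, even for `K = F₂(t)` only -/
def Final : Prop :=
  ¬ ∃ l : IrrV none → IrrV none, ∀ (V W : Type) [AddCommGroup V] [Module ℂ V] [AddCommGroup W]
    [Module ℂ W] (π : Representation ℂ GA V) (P : Representation ℂ GA W),
    IsAutRep π → IsLift π P → ∀ σ : IrrV none, LocComp π none σ → LocComp P none (l σ)

end Pool.Agent.T2H90.LL
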