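import Pool.Agent.T2H90.LL.Defs

/-!
Project LL (helper90): auxiliary definitions.
-/

set_option autoImplicit false
set_option linter.unusedSectionVars false

open Polynomial IsDedekindDomain WithZero

namespace Pool.Agent.T2H90.LL

/-- lower triangular unipotent matrices -/
def low {R : Type} [CommRing R] (x : R) : GL (Fin 2) R where
  val := !![1, 0; x, 1]
  inv := !![1, 0; -x, 1]
  val_inv := by
    ext i j
    fin_cases i <;> fin_cases j <;> simp [Matrix.mul_apply, Fin.sum_univ_two]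
  inv_val := by
    ext i j
    fin_cases i <;> fin_cases j <;> simp [Matrix.mul_apply, Fin.sum_univ_two]

/-- diagonal matrices -/
def dg {R : Type} [CommRing R] (a d : Rˣ) : GL (Fin 2) R where
  val := !![(a : R), 0; 0, (d : R)]
  inv := !![((a⁻¹ : Rˣ) : R), 0; 0, ((d⁻¹ : Rˣ) : R)]
  val_inv := by
    ext i j
    fin_cases i <;> fin_cases j <;> simp [Matrix.mul_apply, Fin.sum_univ_two]
  inv_val := by
    ext i j
    fin_cases i <;> fin_cases j <;> simp [Matrix.mul_apply, Fin.sum_univ_two]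

/-- the permutation matrix -/
def sw {R : Type} [CommRing R] : GL (Fin 2) R where
  val := !![0, 1; 1, 0]
  inv := !![0, 1; 1, 0]
  val_inv := by
    ext i j
    fin_cases i <;> fin_cases j <;> simp [Matrix.mul_apply, Fin.sum_univ_two]
  inv_val := by
    ext i j
    fin_cases i <;> fin_cases j <;> simp [Matrix.mul_apply, Fin.sum_univ_two]

/-- the element `t` of `Kˣ` -/
noncomputable def tK : Kˣ := Units.mk0 RatFunc.X RatFunc.X_ne_zero

/-- the element `t` of `K_vˣ` -/
noncomputable def tv (v : Pl) : (Kv v)ˣ := Units.map (emb v).toMonoidHom tK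

/-- the matrix `(t 0; 0 1)` in `GL₂(K_∞)` -/
noncomputable def dI : Gv none := dg (tv none) 1

/-- the matrix `w = (0 1; t 0)` in `GL₂(K_∞)` -/
noncomputable def wI : Gv none := sw * dI

/-- the Iwahori subgroup of `GL₂(K_∞)`: the integral matrices which are lower triangular modulo
the uniformizer `1/t` -/
def Iw : Subgroup (Gv none) where
  carrier := {g | g ∈ GO none ∧ av none (g 0 1) ≤ exp (-1 : ℤ) ∧ av none (g⁻¹ 0 1) ≤ exp (-1 : ℤ)}
  one_mem' := by
    refine ⟨one_mem _, ?_, ?_⟩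
    · simp
    · rw [inv_one]
      simp
  mul_mem' := by
    intro a b ha hb
    have key : ∀ x y : Gv none, x ∈ GO none → y ∈ GO none → av none (x 0 1) ≤ exp (-1 : ℤ) →
        av none (y 0 1) ≤ exp (-1 : ℤ) → av none ((x * y : Gv none) 0 1) ≤ exp (-1 : ℤ) := by
      intro x y hx hy h1 h2
      rw [Units.val_mul, Matrix.mul_apply, Fin.sum_univ_two]
      refine Valuation.map_add_le _ ?_ ?_
      · rw [map_mul]
        calc _ ≤ 1 * exp (-1 : ℤ) := mul_le_mul' (hx.1 0 0) h2
          _ = _ := one_mul _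
      · rw [map_mul]
        calc _ ≤ exp (-1 : ℤ) * 1 := mul_le_mul' h1 (hy.1 1 1)
          _ = _ := mul_one _
    refine ⟨mul_mem ha.1 hb.1, key a b ha.1 hb.1 ha.2.1 hb.2.1, ?_⟩
    rw [mul_inv_rev]
    exact key _ _ (inv_mem hb.1) (inv_mem ha.1) hb.2.2 ha.2.2
  inv_mem' := by
    intro a ha
    refine ⟨inv_mem ha.1, ha.2.2, ?_⟩
    rw [inv_inv]
    exact ha.2.1

/-- the relations of the vector fixed by the Iwahori subgroup in the Steinberg representation -/
def Harm {V : Type} [AddCommGroup V] [Module ℂ V] (ρ : Representation ℂ (Gv none) V) (x : V) : Prop :=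
  (∀ i ∈ Iw, ρ i x = x) ∧ ρ wI x = -x ∧ x + ρ sw x + ρ (low 1 * sw) x = 0

/-- the span of the vectors `ρ h x - x` -/
def coin {G V : Type} [Group G] [AddCommGroup V] [Module ℂ V] (ρ : Representation ℂ G V)
    (H : Set G) : Submodule ℂ V := Submodule.span ℂ {y | ∃ h ∈ H, ∃ x, y = ρ h x - x}

/-- `S` is a system of representatives of the residue field of `K_v` -/
def IsRes (v : Pl) (S : Finset (Kv v)) : Prop :=
  (∀ b ∈ S, av v b ≤ 1) ∧ ∀ x, av v x ≤ 1 → ∃! b, b ∈ S ∧ av v (x - b) ≤ exp (-1 : ℤ)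

/-- the matrix `(p b; 0 1)` -/
noncomputable def hk {v : Pl} (p : (Kv v)ˣ) (b : Kv v) : Gv v := bor p 1 b

/-- the relations `T_v y = (q_v + 1) y` and `(p 0; 0 p) y = y` -/
def Tri (v : Pl) {V : Type} [AddCommGroup V] [Module ℂ V] (ρ : Representation ℂ (Gv v) V)
    (p : (Kv v)ˣ) (S : Finset (Kv v)) (y : V) : Prop :=
  ρ (dg p p) y = y ∧ (∑ b ∈ S, ρ (hk p b) y) + ρ (dg 1 p) y = ((S.card : ℂ) + 1) • y

/-- the place `t = 0` -/
noncomputable def v0 : HeightOneSpectrum (ZMod 2)[X] where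
  asIdeal := Ideal.span {X}
  isPrime := by
    rw [Ideal.span_singleton_prime X_ne_zero]
    exact Polynomial.prime_X
  ne_bot := by
    rw [Ne, Ideal.span_singleton_eq_bot]
    exact X_ne_zero

end Pool.Agent.T2H90.LL
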